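import Pool.Agent.W371.BA.Inv

/-! MP_f2742c_an: commutativity of radial averages on the group (Gelfand's trick). -/

open MeasureTheory Set Filter Topology Real
open scoped ENNReal NNReal

namespace Pool.Agent.W371.BA.GC

open Pool.Agent.W745 (NN FR HM kk dg)
open Pool.Agent.W314.BA Pool.Agent.W371.BA

noncomputable section

/-- the rotation group as a circle -/
abbrev Ci := AddCircle (2 * π)

instance instF : Fact (0 < 2 * π) := ⟨by positivity⟩

/-- rotations parametrised by the circle -/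
def kc : Ci → G := Function.Periodic.lift (f := kk) (c := 2 * π) Pool.Agent.W745.kk_periodic

lemma kc_coe (t : ℝ) : kc (t : Ci) = kk t := rfl

lemma kc_continuous : Continuous kc := by
  have : Continuous (kc ∘ (QuotientAddGroup.mk : ℝ → Ci)) := kk_continuous
  exact (QuotientAddGroup.isQuotientMap_mk _).continuous_iff.2 this

lemma kc_add (a b : Ci) : kc (a + b) = kc a * kc b := by
  induction a using QuotientAddGroup.induction_on with
  | H a =>
  induction b using QuotientAddGroup.induction_on with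
  | H b =>
  show kc (((a + b : ℝ)) : Ci) = kc (a : Ci) * kc (b : Ci)
  rw [kc_coe, kc_coe, kc_coe, Pool.Agent.W745.kk_add]

/-- Haar probability on the circle -/
def ka : Measure Ci := AddCircle.haarAddCircle

instance : IsProbabilityMeasure ka := by unfold ka; infer_instance
instance : ka.IsAddLeftInvariant := by unfold ka; infer_instance
instance : ka.IsAddRightInvariant := by unfold ka; infer_instance

/-- bi-invariant average -/
def sh (φ : G → ℝ≥0∞) (u : G) : ℝ≥0∞ := ∫⁻ a, ∫⁻ b, φ (kc a * u * kc b) ∂ka ∂ka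

lemma sh_kk (φ : G → ℝ≥0∞) (s t : ℝ) (u : G) : sh φ (kk s * u * kk t) = sh φ u := by
  unfold sh
  have h1 : ∀ a b : Ci, φ (kc a * (kk s * u * kk t) * kc b) =
      φ (kc (a + (s : Ci)) * u * kc ((t : Ci) + b)) := by
    intro a b
    rw [kc_add, kc_add, kc_coe, kc_coe]
    simp only [mul_assoc]
  simp only [h1]
  have h2 : ∀ a : Ci, ∫⁻ b, φ (kc (a + (s : Ci)) * u * kc ((t : Ci) + b)) ∂ka =
      ∫⁻ b, φ (kc (a + (s : Ci)) * u * kc b) ∂ka := fun a =>
    lintegral_add_left_eq_self (fun b => φ (kc (a + (s : Ci)) * u * kc b)) (t : Ci)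
  simp only [h2]
  exact lintegral_add_right_eq_self (fun a => ∫⁻ b, φ (kc a * u * kc b) ∂ka) (s : Ci)

lemma dg_neg_eq (s : ℝ) : dg (-s) = kk (π / 2) * dg s * kk (-(π / 2)) := by
  apply Pool.Agent.W745.sl2_ext <;> simp

lemma sh_inv (φ : G → ℝ≥0∞) (u : G) : sh φ u⁻¹ = sh φ u := by
  obtain ⟨a, s, b, -, rfl⟩ := cartan u
  have h1 : (kk a * dg s * kk b)⁻¹ = kk (-b) * dg (-s) * kk (-a) := by
    rw [Pool.Agent.W745.kk_neg, Pool.Agent.W745.kk_neg, Pool.Agent.W745.dg_neg]
    group
  rw [h1, sh_kk, sh_kk, dg_neg_eq, sh_kk]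

lemma sh_meas {φ : G → ℝ≥0∞} (hφ : Measurable φ) : Measurable (sh φ) := by
  unfold sh
  refine Measurable.lintegral_prod_right' (f := fun p : G × Ci => ∫⁻ b, φ (kc p.2 * p.1 * kc b) ∂ka) ?_
  refine Measurable.lintegral_prod_right'
    (f := fun p : (G × Ci) × Ci => φ (kc p.1.2 * p.1.1 * kc p.2)) ?_
  refine hφ.comp (Continuous.measurable ?_)
  exact ((kc_continuous.comp (continuous_snd.comp continuous_fst)).mul
    (continuous_fst.comp continuous_fst)).mul (kc_continuous.comp continuous_snd)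

/-- the convolution functional -/
def P (x y : ℝ) (φ : G → ℝ≥0∞) : ℝ≥0∞ := ∫⁻ g, ∫⁻ h, φ (h * g) ∂(bm x) ∂(bm y)

lemma P_shift (x y : ℝ) {φ : G → ℝ≥0∞} (hφ : Measurable φ) (a b : Ci) :
    P x y (fun u => φ (kc a * u * kc b)) = P x y φ := by
  induction a using QuotientAddGroup.induction_on with
  | H a =>
  induction b using QuotientAddGroup.induction_on with
  | H b =>
  unfold P
  have h1 : ∀ g : G, ∫⁻ h, φ (kk a * (h * g) * kk b) ∂(bm x) =
      ∫⁻ h, φ (h * (g * kk b)) ∂(bm x) := by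
    intro g
    rw [← (bm_kk_mul x a).lintegral_comp (f := fun h => φ (h * (g * kk b)))
      (hφ.comp (measurable_id.mul_const _))]
    simp only [mul_assoc]
  calc ∫⁻ g, ∫⁻ h, φ (kk a * (h * g) * kk b) ∂(bm x) ∂(bm y)
      = ∫⁻ g, ∫⁻ h, φ (h * (g * kk b)) ∂(bm x) ∂(bm y) := by simp only [h1]
    _ = ∫⁻ g, ∫⁻ h, φ (h * g) ∂(bm x) ∂(bm y) := by
        refine (bm_mul_kk y b).lintegral_comp (f := fun g => ∫⁻ h, φ (h * g) ∂(bm x)) ?_
        exact Measurable.lintegral_prod_right' (f := fun p : G × G => φ (p.2 * p.1))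
          (hφ.comp (measurable_snd.mul measurable_fst))

lemma P_prod (x y : ℝ) {φ : G → ℝ≥0∞} (hφ : Measurable φ) :
    P x y φ = ∫⁻ q, φ (q.2 * q.1) ∂((bm y).prod (bm x)) := by
  unfold P
  rw [lintegral_prod]
  exact (hφ.comp (measurable_snd.mul measurable_fst)).aemeasurable

lemma P_sh (x y : ℝ) {φ : G → ℝ≥0∞} (hφ : Measurable φ) : P x y (sh φ) = P x y φ := by
  rw [P_prod x y (sh_meas hφ)]
  have hm : Measurable (fun r : (G × G) × (Ci × Ci) => φ (kc r.2.1 * (r.1.2 * r.1.1) * kc r.2.2)) := by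
    refine hφ.comp (Continuous.measurable ?_)
    have c1 : Continuous fun r : (G × G) × (Ci × Ci) => r.2.1 := by fun_prop
    have c2 : Continuous fun r : (G × G) × (Ci × Ci) => r.2.2 := by fun_prop
    have c3 : Continuous fun r : (G × G) × (Ci × Ci) => r.1.1 := by fun_prop
    have c4 : Continuous fun r : (G × G) × (Ci × Ci) => r.1.2 := by fun_prop
    exact ((kc_continuous.comp c1).mul (c4.mul c3)).mul (kc_continuous.comp c2)
  have h1 : ∀ q : G × G, sh φ (q.2 * q.1) =
      ∫⁻ p, φ (kc p.1 * (q.2 * q.1) * kc p.2) ∂(ka.prod ka) := by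
    intro q
    unfold sh
    rw [lintegral_prod]
    exact (hm.comp (measurable_const.prodMk measurable_id : Measurable fun p : Ci × Ci => (q, p))).aemeasurable
  simp only [h1]
  rw [lintegral_lintegral_swap hm.aemeasurable]
  have h2 : ∀ p : Ci × Ci, ∫⁻ q, φ (kc p.1 * (q.2 * q.1) * kc p.2) ∂((bm y).prod (bm x)) =
      P x y φ := by
    intro p
    rw [← P_shift x y hφ p.1 p.2, P_prod]
    exact hφ.comp ((measurable_id.const_mul _).mul_const _)
  simp only [h2]
  simp

lemma P_comm (x y : ℝ) {φ : G → ℝ≥0∞} (hφ : Measurable φ) : P x y φ = P y x φ := by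
  rw [← P_sh x y hφ, ← P_sh y x hφ]
  have hs := sh_meas hφ
  unfold P
  calc ∫⁻ g, ∫⁻ h, sh φ (h * g) ∂(bm x) ∂(bm y)
      = ∫⁻ g, ∫⁻ h, sh φ (g⁻¹ * h⁻¹) ∂(bm x) ∂(bm y) := by
        refine lintegral_congr fun g => lintegral_congr fun h => ?_
        rw [← sh_inv, mul_inv_rev]
    _ = ∫⁻ g, ∫⁻ h, sh φ (g⁻¹ * h) ∂(bm x) ∂(bm y) := by
        refine lintegral_congr fun g => ?_
        exact (bm_inv x).lintegral_comp (f := fun h => sh φ (g⁻¹ * h))
          (hs.comp (measurable_id.const_mul _))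
    _ = ∫⁻ g, ∫⁻ h, sh φ (g * h) ∂(bm x) ∂(bm y) := by
        refine (bm_inv y).lintegral_comp (f := fun g => ∫⁻ h, sh φ (g * h) ∂(bm x)) ?_
        exact Measurable.lintegral_prod_right' (f := fun p : G × G => sh φ (p.1 * p.2))
          (hs.comp (measurable_fst.mul measurable_snd))
    _ = ∫⁻ h, ∫⁻ g, sh φ (g * h) ∂(bm y) ∂(bm x) :=
        lintegral_lintegral_swap (hs.comp measurable_mul).aemeasurable

theorem main : GCommStmt := by
  intro x y hx hy φ hφ hb
  obtain ⟨C, hC⟩ := hb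
  have hmeas : ((bm y).prod (bm x)).map (fun p : G × G => p.2 * p.1) =
      ((bm x).prod (bm y)).map (fun p : G × G => p.2 * p.1) := by
    have hmm : Measurable (fun p : G × G => p.2 * p.1) := measurable_snd.mul measurable_fst
    refine Measure.ext_of_lintegral _ fun f hf => ?_
    rw [lintegral_map hf hmm, lintegral_map hf hmm, ← P_prod x y hf, ← P_prod y x hf]
    exact P_comm x y hf
  have key : ∀ x y : ℝ, ∫ g, ∫ h, φ (h * g) ∂(bm x) ∂(bm y) =
      ∫ u, φ u ∂(((bm y).prod (bm x)).map (fun p : G × G => p.2 * p.1)) := by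
    intro x y
    have hmm : Measurable (fun p : G × G => p.2 * p.1) := measurable_snd.mul measurable_fst
    rw [integral_map hmm.aemeasurable hφ.aestronglyMeasurable, integral_prod]
    refine Integrable.of_bound
      (hφ.comp (measurable_snd.mul measurable_fst)).aestronglyMeasurable C ?_
    exact Eventually.of_forall fun p => hC _
  rw [key, key, hmeas]

end

end Pool.Agent.W371.BA.GC
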