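import Pool.Agent.W371.BA.PO

/-! MP_f2742c_an: the mean value formula. -/

open MeasureTheory Set Filter Topology Real
open scoped ENNReal NNReal

namespace Pool.Agent.W371.BA.ME

open Pool.Agent.W314.BA

noncomputable section

/-- differentiation under the integral sign -/
lemma hasDerivAt_param {H H' : ℝ → ℝ → ℝ} (hH : Continuous (Function.uncurry H))
    (hH' : Continuous (Function.uncurry H')) (hd : ∀ r a, HasDerivAt (fun r => H r a) (H' r a) r)
    (α β r₀ : ℝ) :
    HasDerivAt (fun r => ∫ a in α..β, H r a) (∫ a in α..β, H' r₀ a) r₀ := by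
  have hHr : ∀ r, Continuous (H r) := fun r => by
    have : H r = fun a => Function.uncurry H (r, a) := rfl
    rw [this]; exact hH.comp (by fun_prop)
  have hHr' : ∀ r, Continuous (H' r) := fun r => by
    have : H' r = fun a => Function.uncurry H' (r, a) := rfl
    rw [this]; exact hH'.comp (by fun_prop)
  obtain ⟨C, hC⟩ : ∃ C, ∀ p ∈ Icc (r₀ - 1) (r₀ + 1) ×ˢ uIcc α β, ‖Function.uncurry H' p‖ ≤ C :=
    (isCompact_Icc.prod isCompact_uIcc).exists_bound_of_continuousOn hH'.continuousOn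
  refine (intervalIntegral.hasDerivAt_integral_of_dominated_loc_of_deriv_le
    (F := H) (F' := H') (bound := fun _ => C) (s := Icc (r₀ - 1) (r₀ + 1))
    (Icc_mem_nhds (by linarith) (by linarith))
    (Eventually.of_forall fun r => (hHr r).aestronglyMeasurable)
    ((hHr r₀).intervalIntegrable _ _) (hHr' r₀).aestronglyMeasurable ?_
    intervalIntegrable_const ?_).2
  · refine Eventually.of_forall fun t ht x hx => ?_
    exact hC (x, t) ⟨hx, uIoc_subset_uIcc ht⟩
  · exact Eventually.of_forall fun t _ x _ => hd x t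

section
variable (s : ℕ) (w : ℝ)

/-- the argument -/
def sg (r a : ℝ) : ℝ := Real.cosh r * w + Real.sinh r * √(w ^ 2 - 1) * Real.cos a
/-- its derivative -/
def vv (r a : ℝ) : ℝ := Real.sinh r * w + Real.cosh r * √(w ^ 2 - 1) * Real.cos a

/-- first derivative of `Fs s` -/
def F1 (t : ℝ) : ℝ := -(s : ℝ) * ((1 + t) ^ (s + 1))⁻¹
/-- second derivative of `Fs s` -/
def F2 (t : ℝ) : ℝ := (s : ℝ) * (s + 1) * ((1 + t) ^ (s + 2))⁻¹

variable {w}

lemma sg_ge (hw : 1 ≤ w) (r a : ℝ) : 1 ≤ sg w r a := by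
  unfold sg
  have h1 := Real.one_le_cosh r
  have h2 : Real.sinh r ^ 2 = Real.cosh r ^ 2 - 1 := by rw [Real.cosh_sq]; ring
  have h3 : √(w ^ 2 - 1) ^ 2 = w ^ 2 - 1 := Real.sq_sqrt (by nlinarith)
  have h4 : Real.cos a ^ 2 ≤ 1 := Real.cos_sq_le_one a
  have h5 : (Real.sinh r * √(w ^ 2 - 1) * Real.cos a) ^ 2 ≤ (Real.cosh r * w - 1) ^ 2 := by
    rw [mul_pow, mul_pow, h2, h3]
    have h6 : 0 ≤ (Real.cosh r ^ 2 - 1) * (w ^ 2 - 1) :=
      mul_nonneg (by nlinarith) (by nlinarith)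
    nlinarith [sq_nonneg (Real.cosh r - w)]
  have h7 := abs_le_of_sq_le_sq h5 (by nlinarith)
  have h8 := (abs_le.1 h7).1
  linarith

lemma Fs_deriv {t : ℝ} (ht : 1 ≤ t) : HasDerivAt (Fs s) (F1 s t) t := by
  have h0 : (1 + t) ≠ 0 := by linarith
  have h1 : HasDerivAt (fun t : ℝ => 1 + t) 1 t := by
    simpa using (hasDerivAt_id t).const_add 1
  have h2 : HasDerivAt (fun t : ℝ => (1 + t) ^ s) (s * (1 + t) ^ (s - 1) * 1) t := h1.fun_pow s
  have h3 := h2.fun_inv (pow_ne_zero s h0)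
  unfold Fs F1
  refine h3.congr_deriv ?_
  rcases Nat.eq_zero_or_pos s with rfl | hs
  · simp
  · obtain ⟨k, rfl⟩ : ∃ k, s = k + 1 := ⟨s - 1, by omega⟩
    simp only [Nat.add_sub_cancel]
    field_simp
    ring

lemma F1_deriv {t : ℝ} (ht : 1 ≤ t) : HasDerivAt (F1 s) (F2 s t) t := by
  have h0 : (1 + t) ≠ 0 := by linarith
  have h := (Fs_deriv (s + 1) ht).const_mul (-(s : ℝ))
  have e : F1 s = fun t => -(s : ℝ) * Fs (s + 1) t := by ext t; rfl
  rw [e]
  refine h.congr_deriv ?_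
  unfold F1 F2
  push_cast
  ring

lemma sg_cont : Continuous (fun p : ℝ × ℝ => sg w p.1 p.2) := by unfold sg; fun_prop
lemma vv_cont : Continuous (fun p : ℝ × ℝ => vv w p.1 p.2) := by unfold vv; fun_prop

lemma Fs_on : ContinuousOn (Fs s) (Ici 1) := by
  unfold Fs
  refine ContinuousOn.inv₀ (by fun_prop) fun t ht => pow_ne_zero _ ?_
  have : (1 : ℝ) ≤ t := ht
  linarith

lemma F1_on : ContinuousOn (F1 s) (Ici 1) := continuousOn_const.mul (Fs_on (s + 1))

lemma F2_on : ContinuousOn (F2 s) (Ici 1) := continuousOn_const.mul (Fs_on (s + 2))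

lemma Gs_on : ContinuousOn (Gs s) (Ici 1) :=
  (continuousOn_const.mul (Fs_on (s + 1))).sub (continuousOn_const.mul (Fs_on s))

lemma ccomp (hw : 1 ≤ w) {f : ℝ → ℝ} (hf : ContinuousOn f (Ici 1)) :
    Continuous (fun p : ℝ × ℝ => f (sg w p.1 p.2)) :=
  hf.comp_continuous sg_cont fun p => sg_ge hw p.1 p.2

lemma sg_deriv (r a : ℝ) : HasDerivAt (fun r => sg w r a) (vv w r a) r := by
  unfold sg vv
  have h1 := (Real.hasDerivAt_cosh r).mul_const w
  have h2 := ((Real.hasDerivAt_sinh r).mul_const √(w ^ 2 - 1)).mul_const (Real.cos a)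
  exact h1.add h2

lemma vv_deriv (r a : ℝ) : HasDerivAt (fun r => vv w r a) (sg w r a) r := by
  unfold sg vv
  have h1 := (Real.hasDerivAt_sinh r).mul_const w
  have h2 := ((Real.hasDerivAt_cosh r).mul_const √(w ^ 2 - 1)).mul_const (Real.cos a)
  exact h1.add h2

variable (w)
/-- circular mean in the radial variable (times `2π`) -/
def U (r : ℝ) : ℝ := ∫ a in (0 : ℝ)..(2 * π), Fs s (sg w r a)
/-- its derivative -/
def U' (r : ℝ) : ℝ := ∫ a in (0 : ℝ)..(2 * π), F1 s (sg w r a) * vv w r a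
/-- its second derivative -/
def U'' (r : ℝ) : ℝ := ∫ a in (0 : ℝ)..(2 * π),
  (F2 s (sg w r a) * vv w r a * vv w r a + F1 s (sg w r a) * sg w r a)
variable {w}

lemma U_deriv (hw : 1 ≤ w) (r : ℝ) : HasDerivAt (U s w) (U' s w r) r := by
  unfold U U'
  refine hasDerivAt_param (H := fun r a => Fs s (sg w r a))
    (H' := fun r a => F1 s (sg w r a) * vv w r a) ?_ ?_ ?_ _ _ r
  · exact ccomp hw (Fs_on s)
  · exact (ccomp hw (F1_on s)).mul vv_cont
  · intro r a
    exact HasDerivAt.comp (h₂ := Fs s) (h := fun r => sg w r a) r (Fs_deriv s (sg_ge hw r a))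
      (sg_deriv r a)

lemma U'_deriv (hw : 1 ≤ w) (r : ℝ) : HasDerivAt (U' s w) (U'' s w r) r := by
  unfold U' U''
  refine hasDerivAt_param (H := fun r a => F1 s (sg w r a) * vv w r a)
    (H' := fun r a => F2 s (sg w r a) * vv w r a * vv w r a + F1 s (sg w r a) * sg w r a)
    ?_ ?_ ?_ _ _ r
  · exact (ccomp hw (F1_on s)).mul vv_cont
  · exact (((ccomp hw (F2_on s)).mul vv_cont).mul vv_cont).add ((ccomp hw (F1_on s)).mul sg_cont)
  · intro r a
    have h := HasDerivAt.comp (h₂ := F1 s) (h := fun r => sg w r a) r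
      (F1_deriv s (sg_ge hw r a)) (sg_deriv r a)
    exact h.fun_mul (vv_deriv r a)

lemma LF {t : ℝ} (ht : 1 ≤ t) : (t ^ 2 - 1) * F2 s t + 2 * t * F1 s t = -Gs s t := by
  have h0 : (1 + t) ≠ 0 := by linarith
  unfold F2 F1 Gs Fs
  field_simp
  ring

lemma cvv (r : ℝ) : Continuous fun a : ℝ => vv w r a := by unfold vv; fun_prop
lemma csg (r : ℝ) : Continuous fun a : ℝ => sg w r a := by unfold sg; fun_prop
lemma cF1 (hw : 1 ≤ w) (r : ℝ) : Continuous fun a : ℝ => F1 s (sg w r a) :=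
  (F1_on s).comp_continuous (csg r) fun a => sg_ge hw r a
lemma cF2 (hw : 1 ≤ w) (r : ℝ) : Continuous fun a : ℝ => F2 s (sg w r a) :=
  (F2_on s).comp_continuous (csg r) fun a => sg_ge hw r a
lemma cGs (hw : 1 ≤ w) (r : ℝ) : Continuous fun a : ℝ => Gs s (sg w r a) :=
  (Gs_on s).comp_continuous (csg r) fun a => sg_ge hw r a

lemma bdry (hw : 1 ≤ w) (r : ℝ) : ∫ a in (0 : ℝ)..(2 * π),
      (F2 s (sg w r a) * (Real.sinh r * √(w ^ 2 - 1) * Real.sin a) * (√(w ^ 2 - 1) * Real.sin a) -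
        F1 s (sg w r a) * (√(w ^ 2 - 1) * Real.cos a)) = 0 := by
  have hd : ∀ a ∈ uIcc (0 : ℝ) (2 * π), HasDerivAt
      (fun a => -(F1 s (sg w r a) * (√(w ^ 2 - 1) * Real.sin a)))
      (F2 s (sg w r a) * (Real.sinh r * √(w ^ 2 - 1) * Real.sin a) * (√(w ^ 2 - 1) * Real.sin a) -
      F1 s (sg w r a) * (√(w ^ 2 - 1) * Real.cos a)) a := by
    intro a _
    have h1 : HasDerivAt (fun a => sg w r a) (Real.sinh r * √(w ^ 2 - 1) * (-Real.sin a)) a := by
      unfold sg
      exact ((Real.hasDerivAt_cos a).const_mul _).const_add _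
    have h3 : HasDerivAt (fun a => F1 s (sg w r a))
        (F2 s (sg w r a) * (Real.sinh r * √(w ^ 2 - 1) * (-Real.sin a))) a :=
      HasDerivAt.comp (h₂ := F1 s) (h := fun a => sg w r a) a (F1_deriv s (sg_ge hw r a)) h1
    have h2 := (h3.fun_mul ((Real.hasDerivAt_sin a).const_mul √(w ^ 2 - 1))).fun_neg
    refine h2.congr_deriv ?_
    ring
  rw [intervalIntegral.integral_eq_sub_of_hasDerivAt hd]
  · simp
  · refine Continuous.intervalIntegrable ?_ _ _
    exact (((cF2 s hw r).mul (by fun_prop)).mul (by fun_prop)).sub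
      ((cF1 s hw r).mul (by fun_prop))

lemma alg (hw : 1 ≤ w) (r a : ℝ) : Real.cosh r * (F1 s (sg w r a) * vv w r a) +
    Real.sinh r * (F2 s (sg w r a) * vv w r a * vv w r a + F1 s (sg w r a) * sg w r a) +
    Real.sinh r * Gs s (sg w r a) =
    -(F2 s (sg w r a) * (Real.sinh r * √(w ^ 2 - 1) * Real.sin a) * (√(w ^ 2 - 1) * Real.sin a) -
        F1 s (sg w r a) * (√(w ^ 2 - 1) * Real.cos a)) := by
  have hL := LF s (sg_ge hw r a)
  have hc : Real.cosh r ^ 2 - Real.sinh r ^ 2 = 1 := Real.cosh_sq_sub_sinh_sq r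
  have hS : √(w ^ 2 - 1) ^ 2 = w ^ 2 - 1 := Real.sq_sqrt (by nlinarith)
  have hC : Real.cos a ^ 2 + Real.sin a ^ 2 = 1 := Real.cos_sq_add_sin_sq a
  have e1 : sg w r a = Real.cosh r * w + Real.sinh r * √(w ^ 2 - 1) * Real.cos a := rfl
  have e2 : vv w r a = Real.sinh r * w + Real.cosh r * √(w ^ 2 - 1) * Real.cos a := rfl
  generalize F2 s (sg w r a) = f2 at *
  generalize F1 s (sg w r a) = f1 at *
  generalize Gs s (sg w r a) = gg at *
  rw [e2]
  rw [e1] at *
  generalize √(w ^ 2 - 1) = S at *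
  generalize Real.cosh r = c at *
  generalize Real.sinh r = R at *
  generalize Real.cos a = C at *
  generalize Real.sin a = D at *
  linear_combination R * hL + R * f2 * (-(w ^ 2 - S ^ 2 * C ^ 2) * hc + S ^ 2 * hC + hS) +
    f1 * S * C * hc

/-- the key identity -/
lemma key (hw : 1 ≤ w) (r : ℝ) : Real.cosh r * U' s w r + Real.sinh r * U'' s w r =
    -(Real.sinh r * ∫ a in (0 : ℝ)..(2 * π), Gs s (sg w r a)) := by
  have h1 : ∫ a in (0 : ℝ)..(2 * π), (Real.cosh r * (F1 s (sg w r a) * vv w r a) +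
    Real.sinh r * (F2 s (sg w r a) * vv w r a * vv w r a + F1 s (sg w r a) * sg w r a) +
    Real.sinh r * Gs s (sg w r a)) = 0 := by
    rw [intervalIntegral.integral_congr fun a _ => alg s hw r a, intervalIntegral.integral_neg,
      bdry s hw r, neg_zero]
  have i1 : IntervalIntegrable (fun a => Real.cosh r * (F1 s (sg w r a) * vv w r a)) volume
      0 (2 * π) := (continuous_const.mul ((cF1 s hw r).mul (cvv r))).intervalIntegrable _ _
  have i2 : IntervalIntegrable (fun a => Real.sinh r *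
      (F2 s (sg w r a) * vv w r a * vv w r a + F1 s (sg w r a) * sg w r a)) volume 0 (2 * π) :=
    (continuous_const.mul ((((cF2 s hw r).mul (cvv r)).mul (cvv r)).add
      ((cF1 s hw r).mul (csg r)))).intervalIntegrable _ _
  have i3 : IntervalIntegrable (fun a => Real.sinh r * Gs s (sg w r a)) volume 0 (2 * π) :=
    (continuous_const.mul (cGs s hw r)).intervalIntegrable _ _
  rw [intervalIntegral.integral_add (i1.add i2) i3, intervalIntegral.integral_add i1 i2,
    intervalIntegral.integral_const_mul, intervalIntegral.integral_const_mul,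
    intervalIntegral.integral_const_mul] at h1
  unfold U' U''
  linarith

variable (w)
/-- global version of the circular mean of `Gs` -/
def gt (t : ℝ) : ℝ := circ (fun t => Gs s (max 1 t)) t w
/-- global version of the circular mean of `Fs` -/
def ft (t : ℝ) : ℝ := circ (fun t => Fs s (max 1 t)) t w
/-- global version of the ball mean of `Gs` -/
def AA (t : ℝ) : ℝ := dslope (fun t => ∫ τ in (1 : ℝ)..t, gt s w τ) 1 t
variable {w}

lemma gt_cont : Continuous (gt s w) :=
  PO.circ_continuous _ ((Gs_on s).comp_continuous (by fun_prop) fun t => mem_Ici.2 (le_max_left _ _)) w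

lemma ft_cont : Continuous (ft s w) :=
  PO.circ_continuous _ ((Fs_on s).comp_continuous (by fun_prop) fun t => mem_Ici.2 (le_max_left _ _)) w

lemma prim_deriv (t : ℝ) : HasDerivAt (fun t => ∫ τ in (1 : ℝ)..t, gt s w τ) (gt s w t) t :=
  intervalIntegral.integral_hasDerivAt_right ((gt_cont s).intervalIntegrable _ _)
    ((gt_cont s).stronglyMeasurableAtFilter _ _) (gt_cont s).continuousAt

lemma AA_cont : Continuous (AA s w) := by
  rw [continuous_iff_continuousAt]
  intro t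
  unfold AA
  rcases eq_or_ne t 1 with rfl | ht
  · exact continuousAt_dslope_same.2 (prim_deriv s 1).differentiableAt
  · exact (continuousAt_dslope_of_ne ht).2 (prim_deriv s t).continuousAt

lemma AA_mul (t : ℝ) : (t - 1) * AA s w t = ∫ τ in (1 : ℝ)..t, gt s w τ := by
  have := sub_smul_dslope (fun t => ∫ τ in (1 : ℝ)..t, gt s w τ) 1 t
  simp only [smul_eq_mul, intervalIntegral.integral_same, sub_zero] at this
  exact this

lemma arg_ge (hw : 1 ≤ w) {t : ℝ} (ht : 1 ≤ t) (a : ℝ) :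
    1 ≤ t * w + √(t ^ 2 - 1) * √(w ^ 2 - 1) * Real.cos a := by
  obtain ⟨r, hr, rfl⟩ : ∃ r, 0 ≤ r ∧ t = Real.cosh r :=
    ⟨Real.arcosh t, Real.arcosh_nonneg ht, (Real.cosh_arcosh ht).symm⟩
  have h1 : √(Real.cosh r ^ 2 - 1) = Real.sinh r := by
    have : Real.cosh r ^ 2 - 1 = Real.sinh r ^ 2 := by rw [Real.cosh_sq]; ring
    rw [this, Real.sqrt_sq (Real.sinh_nonneg_iff.2 hr)]
  rw [h1]
  exact sg_ge hw r a

lemma circ_max (hw : 1 ≤ w) {t : ℝ} (ht : 1 ≤ t) (f : ℝ → ℝ) :
    circ (fun t => f (max 1 t)) t w = circ f t w := by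
  unfold circ
  congr 1
  refine intervalIntegral.integral_congr fun a _ => ?_
  simp only [max_eq_right (arg_ge hw ht a)]

lemma circ_cosh (hw : 1 ≤ w) {r : ℝ} (hr : 0 ≤ r) (f : ℝ → ℝ) :
    circ (fun t => f (max 1 t)) (Real.cosh r) w =
      (2 * π)⁻¹ * ∫ a in (0 : ℝ)..(2 * π), f (sg w r a) := by
  rw [circ_max hw (Real.one_le_cosh r)]
  unfold circ
  have h1 : √(Real.cosh r ^ 2 - 1) = Real.sinh r := by
    have : Real.cosh r ^ 2 - 1 = Real.sinh r ^ 2 := by rw [Real.cosh_sq]; ring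
    rw [this, Real.sqrt_sq (Real.sinh_nonneg_iff.2 hr)]
  rw [h1]
  rfl

lemma Av_G (hw : 1 ≤ w) {t : ℝ} (ht : 1 < t) : Av (Gs s) t w = AA s w t := by
  have h1 := AA_mul s (w := w) t
  have h2 : ∫ τ in (1 : ℝ)..t, gt s w τ = ∫ τ in (1 : ℝ)..t, circ (Gs s) τ w := by
    refine intervalIntegral.integral_congr fun τ hτ => ?_
    rw [uIcc_of_le ht.le] at hτ
    exact circ_max hw hτ.1 (Gs s)
  unfold Av
  rw [← h2, ← h1, ← mul_assoc, inv_mul_cancel₀ (by linarith), one_mul]

lemma D_eq (hw : 1 ≤ w) {r : ℝ} (hr : 0 ≤ r) :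
    Real.sinh r * U' s w r = -(2 * π * ((Real.cosh r - 1) * AA s w (Real.cosh r))) := by
  have hd : ∀ ρ ∈ uIcc 0 r, HasDerivAt (fun ρ => Real.sinh ρ * U' s w ρ)
      (-(2 * π) * ((gt s w ∘ Real.cosh) ρ * Real.sinh ρ)) ρ := by
    intro ρ hρ
    rw [uIcc_of_le hr] at hρ
    refine ((Real.hasDerivAt_sinh ρ).fun_mul (U'_deriv s hw ρ)).congr_deriv ?_
    rw [key s hw ρ]
    have := circ_cosh hw hρ.1 (Gs s)
    simp only [Function.comp, gt]
    rw [this]
    have hpi : (π : ℝ) ≠ 0 := Real.pi_ne_zero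
    field_simp
  have hci : Continuous fun ρ => -(2 * π) * ((gt s w ∘ Real.cosh) ρ * Real.sinh ρ) :=
    continuous_const.mul (((gt_cont s).comp Real.continuous_cosh).mul Real.continuous_sinh)
  have h1 := intervalIntegral.integral_eq_sub_of_hasDerivAt hd (hci.intervalIntegrable _ _)
  rw [intervalIntegral.integral_const_mul,
    intervalIntegral.integral_comp_mul_deriv (fun x _ => Real.hasDerivAt_cosh x)
      Real.continuous_sinh.continuousOn (gt_cont s), Real.cosh_zero, ← AA_mul] at h1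
  simp only [Real.sinh_zero, zero_mul, sub_zero] at h1
  rw [← h1]
  ring

lemma U'_eq (hw : 1 ≤ w) {r : ℝ} (hr : 0 < r) :
    U' s w r = -(2 * π * (Real.sinh r * AA s w (Real.cosh r) / (Real.cosh r + 1))) := by
  have h1 := D_eq s hw hr.le
  have h2 : 0 < Real.sinh r := Real.sinh_pos_iff.2 hr
  have h3 : 0 < Real.cosh r + 1 := by linarith [Real.cosh_pos r]
  have h4 : Real.cosh r ^ 2 - Real.sinh r ^ 2 = 1 := Real.cosh_sq_sub_sinh_sq r
  apply mul_left_cancel₀ h2.ne'
  rw [h1]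
  field_simp
  linear_combination (-AA s w (Real.cosh r)) * h4

lemma U_zero : U s w 0 = 2 * π * Fs s w := by
  unfold U sg
  simp

theorem mean (hw : 1 ≤ w) {X : ℝ} (hX : 1 < X) :
    Av (Fs s) X w = Fs s w - (X - 1)⁻¹ * ∫ t in (1 : ℝ)..X, (X - t) / (t + 1) * Av (Gs s) t w := by
  obtain ⟨R, hR, hRX⟩ : ∃ r, 0 < r ∧ Real.cosh r = X :=
    ⟨Real.arcosh X, Real.arcosh_pos hX, Real.cosh_arcosh hX.le⟩
  have hpi : (0 : ℝ) < 2 * π := by positivity
  have e1 : ∫ t in (1 : ℝ)..X, (X - t) / (t + 1) * Av (Gs s) t w =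
      ∫ t in (1 : ℝ)..X, (X - t) / (t + 1) * AA s w t := by
    rw [intervalIntegral.integral_of_le hX.le, intervalIntegral.integral_of_le hX.le]
    refine setIntegral_congr_fun measurableSet_Ioc fun t ht => ?_
    simp only [Av_G s hw ht.1]
  have e2 : ∫ t in (1 : ℝ)..X, (X - t) / (t + 1) * AA s w t =
      ∫ r in (0 : ℝ)..R, ((fun t => (X - t) / (t + 1) * AA s w t) ∘ Real.cosh) r * Real.sinh r := by
    rw [intervalIntegral.integral_comp_mul_deriv' (fun x _ => Real.hasDerivAt_cosh x)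
      Real.continuous_sinh.continuousOn, Real.cosh_zero, hRX]
    rintro t ⟨r, -, rfl⟩
    refine ContinuousAt.continuousWithinAt ?_
    refine ContinuousAt.mul (ContinuousAt.div (by fun_prop) (by fun_prop) ?_)
      (AA_cont s).continuousAt
    linarith [Real.cosh_pos r]
  have e3 : ∫ τ in (1 : ℝ)..X, circ (Fs s) τ w = ∫ τ in (1 : ℝ)..X, ft s w τ := by
    refine intervalIntegral.integral_congr fun τ hτ => ?_
    rw [uIcc_of_le hX.le] at hτ
    exact (circ_max hw hτ.1 (Fs s)).symm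
  have e4 : ∫ τ in (1 : ℝ)..X, ft s w τ =
      ∫ r in (0 : ℝ)..R, (ft s w ∘ Real.cosh) r * Real.sinh r := by
    rw [intervalIntegral.integral_comp_mul_deriv (fun x _ => Real.hasDerivAt_cosh x)
      Real.continuous_sinh.continuousOn (ft_cont s), Real.cosh_zero, hRX]
  have e5 : ∫ r in (0 : ℝ)..R, (ft s w ∘ Real.cosh) r * Real.sinh r =
      (2 * π)⁻¹ * ∫ r in (0 : ℝ)..R, U s w r * Real.sinh r := by
    rw [← intervalIntegral.integral_const_mul]
    refine intervalIntegral.integral_congr fun r hr => ?_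
    rw [uIcc_of_le hR.le] at hr
    have := circ_cosh hw hr.1 (Fs s)
    simp only [Function.comp, ft]
    rw [this]
    unfold U
    ring
  have cU' : Continuous (U' s w) := by
    rw [continuous_iff_continuousAt]
    exact fun r => (U'_deriv s hw r).continuousAt
  have e6 : ∫ r in (0 : ℝ)..R, U s w r * Real.sinh r =
      U s w R * (Real.cosh R - X) - U s w 0 * (Real.cosh 0 - X) -
        ∫ r in (0 : ℝ)..R, U' s w r * (Real.cosh r - X) :=
    intervalIntegral.integral_mul_deriv_eq_deriv_mul (fun x _ => U_deriv s hw x)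
      (fun x _ => (Real.hasDerivAt_cosh x).sub_const X) (cU'.intervalIntegrable _ _)
      (Real.continuous_sinh.intervalIntegrable _ _)
  have e7 : ∫ r in (0 : ℝ)..R, U' s w r * (Real.cosh r - X) = 2 * π *
      ∫ r in (0 : ℝ)..R, ((fun t => (X - t) / (t + 1) * AA s w t) ∘ Real.cosh) r * Real.sinh r := by
    rw [← intervalIntegral.integral_const_mul]
    rw [intervalIntegral.integral_of_le hR.le, intervalIntegral.integral_of_le hR.le]
    refine setIntegral_congr_fun measurableSet_Ioc fun r hr => ?_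
    simp only [Function.comp]
    rw [U'_eq s hw hr.1]
    ring
  have e8 : Av (Fs s) X w = (X - 1)⁻¹ * ((2 * π)⁻¹ * ∫ r in (0 : ℝ)..R, U s w r * Real.sinh r) := by
    rw [← e5, ← e4, ← e3]
    rfl
  rw [e8, e6, e1, e2, e7, U_zero, Real.cosh_zero, hRX]
  have hX1 : X - 1 ≠ 0 := by linarith
  have hp : (π : ℝ) ≠ 0 := Real.pi_ne_zero
  field_simp
  ring

end

theorem main : MeanStmt := fun s _ _ hw _ hX => mean s hw hX

end

end Pool.Agent.W371.BA.ME
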