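import Pool.Agent.W371.BA.Inv

/-! MP_f2742c_an: polar coordinates. -/

open MeasureTheory Set Filter Topology Real
open scoped ENNReal NNReal

namespace Pool.Agent.W371.BA.PO

open Pool.Agent.W745 (NN FR HM kk dg)
open Pool.Agent.W314.BA Pool.Agent.W371.BA

noncomputable section

lemma hh_dkd (s ψ s' : ℝ) : hh (dg s * kk ψ * dg s') =
    Real.cosh (2 * s) * Real.cosh (2 * s') +
      Real.sinh (2 * s) * Real.sinh (2 * s') * Real.cos (2 * ψ) := by
  rw [hh_eq]
  simp only [Pool.Agent.W745.mul_00, Pool.Agent.W745.mul_01, Pool.Agent.W745.mul_10,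
    Pool.Agent.W745.mul_11, Pool.Agent.W745.dg_00, Pool.Agent.W745.dg_01,
    Pool.Agent.W745.dg_10, Pool.Agent.W745.dg_11, Pool.Agent.W745.kk_00,
    Pool.Agent.W745.kk_01, Pool.Agent.W745.kk_10, Pool.Agent.W745.kk_11,
    Real.cosh_eq, Real.sinh_eq, Real.cos_two_mul]
  have h1 : rexp (2 * s) = rexp s ^ 2 := by rw [← Real.exp_nat_mul]; norm_num
  have h2 : rexp (-(2 * s)) = rexp (-s) ^ 2 := by rw [← Real.exp_nat_mul]; congr 1; push_cast; ring
  have h3 : rexp (2 * s') = rexp s' ^ 2 := by rw [← Real.exp_nat_mul]; norm_num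
  have h4 : rexp (-(2 * s')) = rexp (-s') ^ 2 := by
    rw [← Real.exp_nat_mul]; congr 1; push_cast; ring
  have h5 : Real.sin ψ ^ 2 = 1 - Real.cos ψ ^ 2 := Real.sin_sq ψ
  rw [h1, h2, h3, h4]
  have h6 : (rexp s * Real.cos ψ + 0 * -Real.sin ψ) * rexp s' +
      (rexp s * Real.sin ψ + 0 * Real.cos ψ) * 0 = rexp s * Real.cos ψ * rexp s' := by ring
  have h7 : (rexp s * Real.cos ψ + 0 * -Real.sin ψ) * 0 +
      (rexp s * Real.sin ψ + 0 * Real.cos ψ) * rexp (-s') = rexp s * Real.sin ψ * rexp (-s') := by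
    ring
  have h8 : (0 * Real.cos ψ + rexp (-s) * -Real.sin ψ) * rexp s' +
      (0 * Real.sin ψ + rexp (-s) * Real.cos ψ) * 0 = -(rexp (-s) * Real.sin ψ * rexp s') := by
    ring
  have h9 : (0 * Real.cos ψ + rexp (-s) * -Real.sin ψ) * 0 +
      (0 * Real.sin ψ + rexp (-s) * Real.cos ψ) * rexp (-s') =
        rexp (-s) * Real.cos ψ * rexp (-s') := by ring
  rw [h6, h7, h8, h9]
  simp only [mul_pow, neg_sq, h5]
  ring

/-- the average over a circle -/
lemma circle_avg (f : ℝ → ℝ) (hf : Continuous f) (c : ℝ) :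
    ∫ φ in (0 : ℝ)..(2 * π), f (Real.cos (2 * (φ + c))) =
      ∫ a in (0 : ℝ)..(2 * π), f (Real.cos a) := by
  have hc : Continuous fun a => f (Real.cos a) := hf.comp Real.continuous_cos
  have h1 : ∀ φ : ℝ, f (Real.cos (2 * (φ + c))) = (fun a => f (Real.cos a)) (2 * φ + 2 * c) := by
    intro φ; simp only [mul_add]
  simp only [h1]
  rw [intervalIntegral.integral_comp_mul_add (fun a => f (Real.cos a)) (by norm_num : (2 : ℝ) ≠ 0)
    (2 * c)]
  have hp : Function.Periodic (fun a => f (Real.cos a)) (2 * π) := fun a => by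
    simp only [Real.cos_add_two_pi]
  have h2 : 2 * (2 * π) + 2 * c = 2 * c + (2 : ℤ) • (2 * π) := by
    rw [zsmul_eq_mul]; push_cast; ring
  rw [h2, mul_zero, zero_add, hp.intervalIntegral_add_zsmul_eq 2 (2 * c)
    (fun _ _ => hc.intervalIntegrable _ _), hp.intervalIntegral_add_eq (2 * c) 0, zero_add]
  simp only [zsmul_eq_mul, smul_eq_mul]
  push_cast
  ring

lemma inner_avg (F : ℝ → ℝ) (hF : Continuous F) (g u : G) :
    ∫ φ in (0 : ℝ)..(2 * π), F (hh (g * kk φ * u)) =
      ∫ a in (0 : ℝ)..(2 * π), F (hh g * hh u + √(hh g ^ 2 - 1) * √(hh u ^ 2 - 1) * Real.cos a) := by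
  obtain ⟨a, s, b, hs, rfl⟩ := cartan g
  obtain ⟨a', s', b', hs', rfl⟩ := cartan u
  have e1 : ∀ φ, hh (kk a * dg s * kk b * kk φ * (kk a' * dg s' * kk b')) =
      hh (dg s * kk (φ + (b + a')) * dg s') := by
    intro φ
    have : kk a * dg s * kk b * kk φ * (kk a' * dg s' * kk b') =
        kk a * (dg s * kk (φ + (b + a')) * dg s') * kk b' := by
      have h : kk (φ + (b + a')) = kk b * kk φ * kk a' := by
        rw [← Pool.Agent.W745.kk_add, ← Pool.Agent.W745.kk_add]; congr 1; ring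
      rw [h]; simp only [mul_assoc]
    rw [this, hh_mul_kk, hh_kk_mul]
  have e2 : hh (kk a * dg s * kk b) = Real.cosh (2 * s) := by rw [hh_mul_kk, hh_kk_mul, hh_dg]
  have e3 : hh (kk a' * dg s' * kk b') = Real.cosh (2 * s') := by rw [hh_mul_kk, hh_kk_mul, hh_dg]
  have e4 : ∀ s : ℝ, 0 ≤ s → √(Real.cosh (2 * s) ^ 2 - 1) = Real.sinh (2 * s) := by
    intro s hs
    have : Real.cosh (2*s)^2 - 1 = Real.sinh (2*s)^2 := by rw [Real.cosh_sq]; ring
    rw [this, Real.sqrt_sq (Real.sinh_nonneg_iff.2 (by positivity))]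
  rw [e2, e3, e4 s hs, e4 s' hs']
  simp only [e1, hh_dkd]
  exact circle_avg (fun c => F (Real.cosh (2 * s) * Real.cosh (2 * s') +
      Real.sinh (2 * s) * Real.sinh (2 * s') * c)) (by fun_prop) (b + a')

lemma circ_continuous (F : ℝ → ℝ) (hF : Continuous F) (w : ℝ) : Continuous fun t => circ F t w := by
  unfold circ
  refine continuous_const.mul ?_
  refine intervalIntegral.continuous_parametric_intervalIntegral_of_continuous' ?_ _ _
  simp only [Function.uncurry_def]
  fun_prop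

/-- radial integrals over balls -/
lemma radial (k : ℝ → ℝ) (hk : Continuous k) (x : ℝ) (hx : 1 < x) :
    ∫ g, k (hh g) ∂(bm x) = (x - 1)⁻¹ * ∫ t in (1 : ℝ)..x, k t := by
  unfold bm
  rw [integral_smul_measure, smul_eq_mul, ENNReal.toReal_ofReal (by rw [inv_nonneg]; linarith)]
  congr 1
  have h1 : Bx x = hh ⁻¹' (Iic x) := rfl
  rw [h1, ← setIntegral_map measurableSet_Iic hk.aestronglyMeasurable hh_measurable.aemeasurable,
    map_hh, Measure.restrict_restrict measurableSet_Iic, inter_comm, Ici_inter_Iic,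
    integral_Icc_eq_integral_Ioc, intervalIntegral.integral_of_le hx.le]

lemma polar_bdd (F : ℝ → ℝ) (hF : Continuous F) (C : ℝ) (hC : ∀ t, |F t| ≤ C) (u : G) (x : ℝ)
    (hx : 1 < x) : ∫ g, F (hh (g * u)) ∂(bm x) = Av F x (hh u) := by
  have hprob := bm_prob hx
  have h1 : ∀ φ : ℝ, ∫ g, F (hh (g * kk φ * u)) ∂(bm x) = ∫ g, F (hh (g * u)) ∂(bm x) := by
    intro φ
    have e := integral_map (bm_mul_kk x φ).measurable.aemeasurable (μ := bm x)
      (f := fun g => F (hh (g * u)))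
      (hF.comp (hh_continuous.comp (continuous_id.mul continuous_const))).aestronglyMeasurable
    rw [(bm_mul_kk x φ).map_eq] at e
    exact e.symm
  have h2 : ∫ φ in (0 : ℝ)..(2 * π), ∫ g, F (hh (g * kk φ * u)) ∂(bm x) =
      2 * π * ∫ g, F (hh (g * u)) ∂(bm x) := by
    simp only [h1]
    rw [intervalIntegral.integral_const]
    simp
  have hcont : Continuous fun p : ℝ × G => F (hh (p.2 * kk p.1 * u)) :=
    hF.comp (hh_continuous.comp ((continuous_snd.mul (kk_continuous.comp continuous_fst)).mul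
      continuous_const))
  have h3 : ∫ φ in (0 : ℝ)..(2 * π), ∫ g, F (hh (g * kk φ * u)) ∂(bm x) =
      ∫ g, (∫ φ in (0 : ℝ)..(2 * π), F (hh (g * kk φ * u))) ∂(bm x) := by
    simp only [intervalIntegral.integral_of_le (show (0 : ℝ) ≤ 2 * π by positivity)]
    rw [integral_integral_swap]
    refine Integrable.of_bound hcont.aestronglyMeasurable C ?_
    exact Eventually.of_forall fun p => hC _
  have hpi : (0 : ℝ) < 2 * π := by positivity
  have h4 : ∫ g, F (hh (g * u)) ∂(bm x) = ∫ g, circ F (hh g) (hh u) ∂(bm x) := by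
    have : ∀ g, circ F (hh g) (hh u) = (2 * π)⁻¹ *
        ∫ φ in (0 : ℝ)..(2 * π), F (hh (g * kk φ * u)) := by
      intro g
      rw [inner_avg F hF]
      rfl
    simp only [this]
    rw [integral_const_mul, ← h3, h2]
    field_simp
  rw [h4, radial _ (circ_continuous F hF (hh u)) x hx]
  rfl

theorem main : PolarStmt := by
  intro F hF u x hx
  set w := hh u with hw
  have hw1 : 1 ≤ w := one_le_hh u
  set B := 2 * x * w with hB
  have hB1 : 1 ≤ B := by nlinarith
  set F' : ℝ → ℝ := fun t => F (max 1 (min t B)) with hF'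
  have hF'c : Continuous F' := by
    refine hF.comp_continuous (by fun_prop) fun t => ?_
    exact mem_Ici.2 (le_max_left _ _)
  obtain ⟨C, hC⟩ : ∃ C, ∀ t ∈ Icc 1 B, ‖F t‖ ≤ C :=
    isCompact_Icc.exists_bound_of_continuousOn (hF.mono fun t ht => ht.1)
  have hb : ∀ t, |F' t| ≤ C := fun t => hC _ ⟨le_max_left _ _, max_le hB1 (min_le_right _ _)⟩
  have heq : ∀ t, 1 ≤ t → t ≤ B → F' t = F t := by
    intro t h1 h2
    simp only [hF', min_eq_left h2, max_eq_right h1]
  have key := polar_bdd F' hF'c C hb u x hx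
  have e1 : ∫ g, F (hh (g * u)) ∂(bm x) = ∫ g, F' (hh (g * u)) ∂(bm x) := by
    refine integral_congr_ae ?_
    filter_upwards [ae_bm_mem x] with g hg
    have hg' : hh g ≤ x := hg
    refine (heq _ (one_le_hh _) ?_).symm
    refine (hh_mul_le g u).trans ?_
    rw [hB, ← hw]
    nlinarith
  rw [e1, key]
  unfold Av
  congr 1
  refine intervalIntegral.integral_congr fun τ hτ => ?_
  rw [uIcc_of_le hx.le] at hτ
  unfold circ
  congr 1
  refine intervalIntegral.integral_congr fun a _ => ?_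
  have ht1 := hτ.1
  have ht2 := hτ.2
  have s1 : √(τ ^ 2 - 1) ≤ τ := by
    rw [Real.sqrt_le_left (by linarith)]; linarith
  have s2 : √(w ^ 2 - 1) ≤ w := by
    rw [Real.sqrt_le_left (by linarith)]; linarith
  have s0 : 0 ≤ √(τ ^ 2 - 1) * √(w ^ 2 - 1) := by positivity
  have s3 : √(τ ^ 2 - 1) * √(w ^ 2 - 1) ≤ τ * w := by
    apply mul_le_mul s1 s2 (by positivity) (by linarith)
  have s4 : √(τ ^ 2 - 1) * √(w ^ 2 - 1) ≤ τ * w - 1 := by
    rw [← Real.sqrt_mul (by nlinarith)]
    rw [Real.sqrt_le_left (by nlinarith)]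
    nlinarith [sq_nonneg (τ - w)]
  have c1 := Real.neg_one_le_cos a
  have c2 := Real.cos_le_one a
  refine heq _ ?_ ?_
  · nlinarith
  · rw [hB]; nlinarith

end

end Pool.Agent.W371.BA.PO
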