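import Pool.Agent.W371.BA.Inv

/-! MP_f2742c_an: domination of a ball by a product with a small ball. -/

open MeasureTheory Set Filter Topology Real
open scoped ENNReal NNReal

namespace Pool.Agent.W371.BA.DRL

open Pool.Agent.W745 (NN FR HM kk dg)
open Pool.Agent.W314.BA Pool.Agent.W371.BA

noncomputable section

/-- general domination: `m g u` is a measurable product such that `m · u` preserves `hm` -/
lemma dom (m : G → G → G) (hm1 : Measurable (Function.uncurry m))
    (hmp : ∀ u, MeasurePreserving (fun g => m g u) hm hm)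
    (hb : ∀ g u, hh g ≤ 2 * hh (m g u) * hh u) (x : ℝ) (hx : 2 ≤ x) (φ : G → ℝ≥0∞)
    (hφ : Measurable φ) :
    ∫⁻ g, φ g ∂(bm x) ≤ 7 * ∫⁻ g, ∫⁻ u, φ (m g u) ∂(bm 2) ∂(bm (4 * x)) := by
  have e1 : ∀ g, ∫⁻ u, φ (m g u) ∂(bm 2) = ∫⁻ u in Bx 2, φ (m g u) ∂hm := by
    intro g
    rw [bm_lint]
    norm_num
  simp only [e1]
  rw [bm_lint, bm_lint]
  have e2 : ∫⁻ g in Bx x, φ g ∂hm ≤
      ∫⁻ g in Bx (4 * x), ∫⁻ u in Bx 2, φ (m g u) ∂hm ∂hm := by
    rw [lintegral_lintegral_swap (by exact (hφ.comp hm1).aemeasurable)]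
    calc ∫⁻ g in Bx x, φ g ∂hm = ∫⁻ u in Bx 2, (∫⁻ g in Bx x, φ g ∂hm) ∂hm := by
          rw [setLIntegral_const, hm_Bx (by norm_num)]
          norm_num
      _ ≤ _ := by
          refine setLIntegral_mono' (Bx_meas 2) fun u hu => ?_
          rw [← (hmp u).setLIntegral_comp_preimage (Bx_meas x) hφ]
          refine lintegral_mono_set fun g hg => ?_
          have h1 : hh (m g u) ≤ x := hg
          have h2 : hh u ≤ 2 := hu
          have h3 := hb g u
          have h4 := one_le_hh u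
          have h5 := one_le_hh (m g u)
          show hh g ≤ 4 * x
          nlinarith
  calc ENNReal.ofReal ((x - 1)⁻¹) * ∫⁻ g in Bx x, φ g ∂hm
      ≤ ENNReal.ofReal (7 * (4 * x - 1)⁻¹) *
        ∫⁻ g in Bx (4 * x), ∫⁻ u in Bx 2, φ (m g u) ∂hm ∂hm := by
        refine mul_le_mul' (ENNReal.ofReal_le_ofReal ?_) e2
        rw [← div_eq_mul_inv, inv_le_comm₀ (by linarith) (by apply div_pos <;> linarith), inv_div,
          div_le_iff₀ (by norm_num)]
        linarith
    _ = _ := by
        rw [ENNReal.ofReal_mul (by norm_num)]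
        norm_num [mul_assoc]

theorem main : DomRStmt ∧ DomLStmt := by
  refine ⟨⟨7, by norm_num, fun x hx φ hφ => ?_⟩, ⟨7, by norm_num, fun x hx φ hφ => ?_⟩⟩
  · refine dom (fun g u => g * u) measurable_mul (fun u => hm_mul_right u) (fun g u => ?_) x hx φ hφ
    have h1 := hh_mul_le (g * u) u⁻¹
    rw [mul_inv_cancel_right, hh_inv] at h1
    exact h1
  · refine dom (fun g u => u * g) (measurable_snd.mul measurable_fst) (fun u => hm_mul_left u)
      (fun g u => ?_) x hx φ hφ
    have h1 := hh_mul_le u⁻¹ (u * g)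
    rw [inv_mul_cancel_left, hh_inv] at h1
    linarith

end

end Pool.Agent.W371.BA.DRL
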