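import Pool.Agent.W314.BA.Stm

/-! MP_f2742c_an: invariance of the ball measures. -/

open MeasureTheory Set Filter Topology Real
open scoped ENNReal NNReal

namespace Pool.Agent.W371.BA

open Pool.Agent.W745 (NN FR HM kk dg)
open Pool.Agent.W314.BA

noncomputable section

instance instMM : MeasurableMul₂ G := inferInstance
instance instMI : MeasurableInv G := inferInstance

lemma bm_lint (x : ℝ) (φ : G → ℝ≥0∞) :
    ∫⁻ g, φ g ∂(bm x) = ENNReal.ofReal ((x - 1)⁻¹) * ∫⁻ g in Bx x, φ g ∂hm := by
  unfold bm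
  rw [lintegral_smul_measure, smul_eq_mul]

lemma bm_mp {f : G → G} (hf : MeasurePreserving f hm hm) (hh' : ∀ g, hh (f g) = hh g) (x : ℝ) :
    MeasurePreserving f (bm x) (bm x) := by
  refine ⟨hf.measurable, ?_⟩
  unfold bm
  rw [Measure.map_smul]
  congr 1
  have h1 : f ⁻¹' (Bx x) = Bx x := by
    ext g; simp only [Bx, mem_preimage, mem_ofPred_eq, hh']
  conv_lhs => rw [← h1]
  rw [(hf.restrict_preimage (Bx_meas x)).map_eq]

lemma bm_mul_kk (x a : ℝ) : MeasurePreserving (fun g => g * kk a) (bm x) (bm x) :=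
  bm_mp (hm_mul_right _) (fun g => hh_mul_kk g a) x

lemma bm_kk_mul (x a : ℝ) : MeasurePreserving (fun g => kk a * g) (bm x) (bm x) :=
  bm_mp (hm_mul_left _) (fun g => hh_kk_mul a g) x

lemma bm_inv (x : ℝ) : MeasurePreserving (fun g : G => g⁻¹) (bm x) (bm x) :=
  bm_mp hm_inv hh_inv x

lemma kk_continuous : Continuous kk := by
  rw [Pool.Agent.W745.closedEmb.isInducing.continuous_iff]
  have h00 : Continuous fun a => (kk a).1 0 0 := by
    simp only [Pool.Agent.W745.kk_00]; exact Real.continuous_cos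
  have h01 : Continuous fun a => (kk a).1 0 1 := by
    simp only [Pool.Agent.W745.kk_01]; exact Real.continuous_sin
  have h10 : Continuous fun a => (kk a).1 1 0 := by
    simp only [Pool.Agent.W745.kk_10]; exact Real.continuous_sin.neg
  have h11 : Continuous fun a => (kk a).1 1 1 := by
    simp only [Pool.Agent.W745.kk_11]; exact Real.continuous_cos
  refine continuous_matrix fun i j => ?_
  fin_cases i <;> fin_cases j
  · exact h00
  · exact h01
  · exact h10
  · exact h11

lemma ae_bm_mem (x : ℝ) : ∀ᵐ g ∂(bm x), g ∈ Bx x := by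
  unfold bm
  exact (ae_restrict_mem (Bx_meas x)).filter_mono (Measure.ae_smul_measure_le _)

end

end Pool.Agent.W371.BA
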